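import Mathlib

/-!
# Howitt-Warren flows with finite right speed: no Tracy-Widom limit beyond the speed

For a Howitt-Warren flow with drift `β` and characteristic measure `ν` such that
`S = ∫ q⁻¹ ν(dq) < ∞` the kernels `K_{0,t}(0, ·)` give no mass to `[t x, ∞)` with a probability which
stays away from `0`, for every `x > β + 2 S`. Hence `- log K_{0,t}(0, [t x, t x + 1])` is infinite with
a probability bounded below, and no centering and scaling makes it converge in law.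

Proof idea: the expected maximum of the `n`-point motion started from `0` is at most `(β + 2 S) t`,
uniformly in `n`, by the martingale problem; let `n → ∞`.
-/

set_option autoImplicit false

open MeasureTheory ProbabilityTheory Filter Topology
open scoped ENNReal NNReal

namespace Pool.Agent.Results.MP_b213bc_pr.FiniteSpeed

/-! ### Definitions -/

/-- `β₊(m) = β + 2 ∫ ν(dq) ∑_{k=0}^{m-2} (1-q)^k` for `m ≥ 2`, and `β₊(1) = β`. -/
noncomputable def betaPlus (β : ℝ) (ν : Measure unitInterval) (m : ℕ) : ℝ :=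
  β + 2 * ∫ q : unitInterval, ∑ k ∈ Finset.range (m - 1), (1 - (q : ℝ)) ^ k ∂ν

/-- `f_Δ(x) = max_{i ∈ Δ} x_i`. -/
noncomputable def fMax {n : ℕ} (Δ : Finset (Fin n)) (hΔ : Δ.Nonempty) (x : Fin n → ℝ) : ℝ :=
  Δ.sup' hΔ x

/-- `g_Δ(x) = |{i ∈ Δ : x_i = f_Δ(x)}|`. -/
noncomputable def gMax {n : ℕ} (Δ : Finset (Fin n)) (hΔ : Δ.Nonempty) (x : Fin n → ℝ) : ℕ :=
  (Δ.filter fun i => x i = fMax Δ hΔ x).card

/-- `X = (X_1, …, X_n)`, indexed by the times `t ≥ 0`, solves the Howitt-Warren martingale problem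
with drift `β` and characteristic measure `ν`, started from `x`: it has continuous paths, starts from
`x`, is square integrable, and for every nonempty set `Δ` of indices
`f_Δ(X(t)) - ∫_0^t β₊(g_Δ(X(s))) ds` is a martingale for the natural filtration of `X`. For `Δ = {i}`
this says that `X_i(t) - β t` is a martingale, so that the requirement
`⟨X_i, X_j⟩(t) = ∫_0^t 1{X_i(s) = X_j(s)} ds` on the covariations says that
`(X_i(t) - β t) (X_j(t) - β t) - ∫_0^t 1{X_i(s) = X_j(s)} ds` is a martingale. -/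
structure SolvesHowittWarren (β : ℝ) (ν : Measure unitInterval) {n : ℕ} (x : Fin n → ℝ)
    {Ω : Type} [MeasurableSpace Ω] (P : Measure Ω) (X : ℝ≥0 → Ω → (Fin n → ℝ)) : Prop where
  measurable : ∀ t, Measurable (X t)
  start : ∀ᵐ ω ∂P, X 0 ω = x
  continuous : ∀ ω, Continuous fun t => X t ω
  square_integrable : ∀ t i, MemLp (fun ω => X t ω i) 2 P
  covariation : ∀ i j, Martingale (fun (t : ℝ≥0) ω => (X t ω i - β * t) * (X t ω j - β * t) -
      ∫ s in (0 : ℝ)..t, if X s.toNNReal ω i = X s.toNNReal ω j then (1 : ℝ) else 0)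
    (Filtration.natural X fun t => (measurable t).stronglyMeasurable) P
  maximum : ∀ (Δ : Finset (Fin n)) (hΔ : Δ.Nonempty), Martingale
    (fun (t : ℝ≥0) ω => fMax Δ hΔ (X t ω) -
      ∫ s in (0 : ℝ)..t, betaPlus β ν (gMax Δ hΔ (X s.toNNReal ω)))
    (Filtration.natural X fun t => (measurable t).stronglyMeasurable) P

/-- The `σ`-algebra generated by the random kernel `K_{s,t}`. -/
@[reducible] def kernelAlgebra {Ω : Type*} (K : ℝ → ℝ → Ω → Kernel ℝ ℝ) (s t : ℝ) : MeasurableSpace Ω :=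
  ⨆ (x : ℝ) (A : {A : Set ℝ // MeasurableSet A}),
    MeasurableSpace.comap (fun ω => K s t ω x A) inferInstance

/-- `K` is a stochastic flow of kernels on `ℝ`: a family `(K_{s,t})_{s ≤ t}` of random probability
kernels such that (i) for all `s ≤ t ≤ u` and `x`, almost surely `K_{s,s}(x, ·) = δ_x` and
`∫ K_{s,t}(x, dy) K_{t,u}(y, A) = K_{s,u}(x, A)` for every Borel set `A`; (ii) the kernels attached to
successive disjoint time intervals are independent; (iii) `K_{s,t}` and `K_{s+u,t+u}` have the same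
finite-dimensional distributions. -/
structure IsStochasticFlowOfKernels {Ω : Type*} [MeasurableSpace Ω] (P : Measure Ω)
    (K : ℝ → ℝ → Ω → Kernel ℝ ℝ) : Prop where
  probability : ∀ s t, s ≤ t → ∀ ω, IsMarkovKernel (K s t ω)
  measurable : ∀ s t, s ≤ t → ∀ A : Set ℝ, MeasurableSet A →
    Measurable fun p : Ω × ℝ => K s t p.1 p.2 A
  refl : ∀ s x, ∀ᵐ ω ∂P, K s s ω x = Measure.dirac x
  comp : ∀ s t u, s ≤ t → t ≤ u → ∀ x, ∀ᵐ ω ∂P, ∀ A : Set ℝ, MeasurableSet A →
    ∫⁻ y, K t u ω y A ∂(K s t ω x) = K s u ω x A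
  indep : ∀ (n : ℕ) (t : Fin (n + 1) → ℝ), Monotone t →
    iIndep (fun i : Fin n => kernelAlgebra K (t i.castSucc) (t i.succ)) P
  stationary : ∀ s t u, s ≤ t → ∀ (n : ℕ) (x : Fin n → ℝ) (A : Fin n → Set ℝ),
    (∀ i, MeasurableSet (A i)) →
    P.map (fun ω i => K s t ω (x i) (A i)) = P.map (fun ω i => K (s + u) (t + u) ω (x i) (A i))

/-- `X` is an `n`-point motion of the flow `K`, started from `x`: a Markov process with the
transition probabilities `E ∏_i K_{s,t}(y_i, A_i)`, `s ≤ t` (for `s = 0` and `B = Ω` this says that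
`P(X_i(t) ∈ A_i for all i) = E ∏_i K_{0,t}(x_i, A_i)`). -/
structure IsPointMotion {Ω : Type*} [MeasurableSpace Ω] (P : Measure Ω)
    (K : ℝ → ℝ → Ω → Kernel ℝ ℝ) {n : ℕ} (x : Fin n → ℝ)
    {Ω' : Type} [MeasurableSpace Ω'] (P' : Measure Ω') (X : ℝ≥0 → Ω' → (Fin n → ℝ)) : Prop where
  start : ∀ᵐ ω' ∂P', X 0 ω' = x
  markov : ∀ s t : ℝ≥0, s ≤ t → ∀ A : Fin n → Set ℝ, (∀ i, MeasurableSet (A i)) →
    ∀ B : Set Ω', MeasurableSet[⨆ u ≤ s, MeasurableSpace.comap (X u) inferInstance] B →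
      P' (B ∩ {ω' | ∀ i, X t ω' i ∈ A i}) =
        ∫⁻ ω' in B, ∫⁻ ω, ∏ i, K s t ω (X s ω' i) (A i) ∂P ∂P'

/-- `K` is a Howitt-Warren flow with drift `β` and characteristic measure `ν`: a stochastic flow of
kernels whose `n`-point motions solve the Howitt-Warren martingale problem. -/
structure IsHowittWarrenFlow (β : ℝ) (ν : Measure unitInterval) {Ω : Type*} [MeasurableSpace Ω]
    (P : Measure Ω) (K : ℝ → ℝ → Ω → Kernel ℝ ℝ) : Prop where
  flow : IsStochasticFlowOfKernels P K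
  motions : ∀ (n : ℕ) (x : Fin n → ℝ), ∃ (Ω' : Type) (_ : MeasurableSpace Ω') (P' : Measure Ω')
    (_ : IsProbabilityMeasure P') (X : ℝ≥0 → Ω' → (Fin n → ℝ)),
    IsPointMotion P K x P' X ∧ SolvesHowittWarren β ν x P' X

/-- Convergence in law, as `t → ∞`, of extended real random variables `Y_t` to the probability
measure `ρ` on `ℝ`: convergence of the distribution functions at the points without mass. -/
def ConvergesInLaw {Ω : Type*} [MeasurableSpace Ω] (P : Measure Ω) (Y : ℝ → Ω → EReal)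
    (ρ : Measure ℝ) : Prop :=
  ∀ s : ℝ, ρ {s} = 0 → Tendsto (fun t => P {ω | Y t ω ≤ (s : EReal)}) atTop (𝓝 (ρ (Set.Iic s)))

/-- The random variable `(- log κ_t - c t) / (σ t^{1/3})`, where `κ_t` takes values in `[0, ∞]`
(`- log 0 = ∞`). -/
noncomputable def rescaled {Ω : Type*} (κ : ℝ → Ω → ℝ≥0∞) (c σ : ℝ) (t : ℝ) (ω : Ω) : EReal :=
  (-(ENNReal.log (κ t ω)) - ((c * t : ℝ) : EReal)) / ((σ * t ^ (1 / 3 : ℝ) : ℝ) : EReal)


/-! ### The drift of the maximum -/

/-- `S = ∫ q⁻¹ ν(dq)`. -/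
noncomputable def invMoment (ν : Measure unitInterval) : ℝ≥0∞ :=
  ∫⁻ q : unitInterval, (ENNReal.ofReal (q : ℝ))⁻¹ ∂ν

lemma geom_nonneg (q : unitInterval) (m : ℕ) :
    0 ≤ ∑ k ∈ Finset.range m, (1 - (q : ℝ)) ^ k :=
  Finset.sum_nonneg fun k _ => pow_nonneg (by have := q.2.2; linarith) _

lemma geom_le (q : unitInterval) (m : ℕ) :
    ENNReal.ofReal (∑ k ∈ Finset.range m, (1 - (q : ℝ)) ^ k) ≤ (ENNReal.ofReal (q : ℝ))⁻¹ := by
  have h0 : 0 ≤ (q : ℝ) := q.2.1
  have h1 : (q : ℝ) ≤ 1 := q.2.2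
  rcases h0.eq_or_lt with h | h
  · rw [← h]
    simp
  · rw [← ENNReal.ofReal_inv_of_pos h]
    apply ENNReal.ofReal_le_ofReal
    have h2 : (∑ k ∈ Finset.range m, (1 - (q : ℝ)) ^ k) * (1 - (1 - (q : ℝ))) =
        1 - (1 - (q : ℝ)) ^ m := geom_sum_mul_neg _ _
    have h3 : 0 ≤ (1 - (q : ℝ)) ^ m := pow_nonneg (by linarith) _
    rw [← one_div, le_div_iff₀ h]
    have h4 : (1 - (1 - (q : ℝ))) = q := by ring
    rw [h4] at h2
    linarith

lemma betaPlus_one (β : ℝ) (ν : Measure unitInterval) : betaPlus β ν 1 = β := by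
  simp [betaPlus]

lemma geom_integral_nonneg (ν : Measure unitInterval) (m : ℕ) :
    0 ≤ ∫ q : unitInterval, ∑ k ∈ Finset.range m, (1 - (q : ℝ)) ^ k ∂ν :=
  integral_nonneg fun q => geom_nonneg q m

lemma le_betaPlus (β : ℝ) (ν : Measure unitInterval) (m : ℕ) : β ≤ betaPlus β ν m := by
  unfold betaPlus
  linarith [geom_integral_nonneg ν (m - 1)]

lemma betaPlus_le (β : ℝ) {ν : Measure unitInterval} (hν : invMoment ν ≠ ∞) (m : ℕ) :
    betaPlus β ν m ≤ β + 2 * (invMoment ν).toReal := by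
  have h1 : ∫ q : unitInterval, ∑ k ∈ Finset.range (m - 1), (1 - (q : ℝ)) ^ k ∂ν ≤
      (invMoment ν).toReal := by
    rw [integral_eq_lintegral_of_nonneg_ae (ae_of_all _ fun q => geom_nonneg q _)
      (by fun_prop)]
    apply ENNReal.toReal_mono hν
    exact lintegral_mono fun q => geom_le q _
  unfold betaPlus
  linarith

lemma measurable_fMax {n : ℕ} (Δ : Finset (Fin n)) (hΔ : Δ.Nonempty) : Measurable (fMax Δ hΔ) := by
  unfold fMax
  have h := Finset.measurable_sup' (f := fun (i : Fin n) (x : Fin n → ℝ) => x i) hΔ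
    fun i _ => measurable_pi_apply i
  convert h using 1
  funext x
  rw [Finset.sup'_apply]

lemma measurable_gMax {n : ℕ} (Δ : Finset (Fin n)) (hΔ : Δ.Nonempty) : Measurable (gMax Δ hΔ) := by
  have h : gMax Δ hΔ = fun x => ∑ i ∈ Δ, if x i = fMax Δ hΔ x then 1 else 0 := by
    funext x
    unfold gMax
    rw [Finset.card_filter]
  rw [h]
  refine Finset.measurable_fun_sum _ fun i _ => ?_
  refine Measurable.ite ?_ measurable_const measurable_const
  exact measurableSet_eq_fun (measurable_pi_apply i) (measurable_fMax Δ hΔ)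

variable {β : ℝ} {ν : Measure unitInterval} {n : ℕ} {x : Fin n → ℝ}
  {Ω' : Type} [MeasurableSpace Ω'] {P' : Measure Ω'} [IsProbabilityMeasure P']
  {X : ℝ≥0 → Ω' → (Fin n → ℝ)}

omit [IsProbabilityMeasure P'] in
lemma drift_integral_le (hν : invMoment ν ≠ ∞) (hX : SolvesHowittWarren β ν x P' X)
    (Δ : Finset (Fin n)) (hΔ : Δ.Nonempty) (t : ℝ≥0) (ω : Ω') :
    ∫ s in (0 : ℝ)..t, betaPlus β ν (gMax Δ hΔ (X s.toNNReal ω)) ≤
      (β + 2 * (invMoment ν).toReal) * t := by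
  have hm : Measurable fun s : ℝ => betaPlus β ν (gMax Δ hΔ (X s.toNNReal ω)) := by
    have h1 : Measurable fun s : ℝ => X s.toNNReal ω :=
      ((hX.continuous ω).comp continuous_real_toNNReal).measurable
    exact (measurable_of_countable (betaPlus β ν)).comp ((measurable_gMax Δ hΔ).comp h1)
  have hi : IntervalIntegrable (fun s : ℝ => betaPlus β ν (gMax Δ hΔ (X s.toNNReal ω))) volume
      0 t := by
    refine (intervalIntegrable_const (c := |β| + |β + 2 * (invMoment ν).toReal|)).mono_fun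
      hm.aestronglyMeasurable (ae_of_all _ fun s => ?_)
    have h1 := le_betaPlus β ν (gMax Δ hΔ (X s.toNNReal ω))
    have h2 := betaPlus_le β hν (gMax Δ hΔ (X s.toNNReal ω))
    have h3 : 0 ≤ |β| + |β + 2 * (invMoment ν).toReal| := by positivity
    simp only [Real.norm_eq_abs]
    rw [abs_of_nonneg h3, abs_le]
    constructor
    · linarith [neg_abs_le β, abs_nonneg (β + 2 * (invMoment ν).toReal)]
    · linarith [le_abs_self (β + 2 * (invMoment ν).toReal), abs_nonneg β]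
  have h2 : ∫ s in (0 : ℝ)..t, betaPlus β ν (gMax Δ hΔ (X s.toNNReal ω)) ≤
      ∫ s in (0 : ℝ)..t, (β + 2 * (invMoment ν).toReal) :=
    intervalIntegral.integral_mono_on t.2 hi intervalIntegrable_const
      fun s _ => betaPlus_le β hν _
  rw [intervalIntegral.integral_const, smul_eq_mul, sub_zero] at h2
  linarith

lemma integrable_coord (hX : SolvesHowittWarren β ν x P' X) (t : ℝ≥0) (i : Fin n) :
    Integrable (fun ω => X t ω i) P' :=
  (hX.square_integrable t i).integrable (by norm_num)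

lemma fMax_abs_le (Δ : Finset (Fin n)) (hΔ : Δ.Nonempty) (y : Fin n → ℝ) :
    |fMax Δ hΔ y| ≤ ∑ i, |y i| := by
  obtain ⟨i, -, hi⟩ := Finset.exists_mem_eq_sup' hΔ y
  unfold fMax
  rw [hi]
  exact Finset.single_le_sum (f := fun i => |y i|) (fun i _ => abs_nonneg _) (Finset.mem_univ i)

lemma integrable_fMax (hX : SolvesHowittWarren β ν x P' X) (Δ : Finset (Fin n))
    (hΔ : Δ.Nonempty) (t : ℝ≥0) : Integrable (fun ω => fMax Δ hΔ (X t ω)) P' := by
  refine Integrable.mono' (g := fun ω => ∑ i, |X t ω i|)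
    (integrable_finsetSum _ fun i _ => (integrable_coord hX t i).abs)
    ((measurable_fMax Δ hΔ).comp (hX.measurable t)).aestronglyMeasurable
    (ae_of_all _ fun ω => ?_)
  rw [Real.norm_eq_abs]
  exact fMax_abs_le Δ hΔ _

/-- the mean of the maximum -/
lemma mean_fMax (hν : invMoment ν ≠ ∞) (hX : SolvesHowittWarren β ν x P' X)
    (Δ : Finset (Fin n)) (hΔ : Δ.Nonempty) (t : ℝ≥0) :
    ∫ ω, fMax Δ hΔ (X t ω) ∂P' ≤ fMax Δ hΔ x + (β + 2 * (invMoment ν).toReal) * t := by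
  have hM := hX.maximum Δ hΔ
  have h1 := hM.setIntegral_eq (zero_le : (0 : ℝ≥0) ≤ t) MeasurableSet.univ
  simp only [setIntegral_univ] at h1
  have h2 : ∫ ω, (fMax Δ hΔ (X 0 ω) -
      ∫ s in (0 : ℝ)..((0 : ℝ≥0) : ℝ), betaPlus β ν (gMax Δ hΔ (X s.toNNReal ω))) ∂P' =
      fMax Δ hΔ x := by
    have h3 : (fun ω => fMax Δ hΔ (X 0 ω) -
        ∫ s in (0 : ℝ)..((0 : ℝ≥0) : ℝ), betaPlus β ν (gMax Δ hΔ (X s.toNNReal ω))) =ᵐ[P']
        fun _ => fMax Δ hΔ x := by
      filter_upwards [hX.start] with ω hω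
      rw [hω]
      simp
    rw [integral_congr_ae h3]
    simp
  rw [h2] at h1
  have hF := integrable_fMax hX Δ hΔ t
  have hD : Integrable (fun ω => ∫ s in (0 : ℝ)..t,
      betaPlus β ν (gMax Δ hΔ (X s.toNNReal ω))) P' := by
    have h4 := hF.sub (hM.integrable t)
    refine h4.congr (ae_of_all _ fun ω => ?_)
    simp
  rw [integral_sub hF hD] at h1
  have h5 : ∫ ω, (∫ s in (0 : ℝ)..t, betaPlus β ν (gMax Δ hΔ (X s.toNNReal ω))) ∂P' ≤
      ∫ _ω, (β + 2 * (invMoment ν).toReal) * t ∂P' :=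
    integral_mono hD (integrable_const _) fun ω => drift_integral_le hν hX Δ hΔ t ω
  rw [integral_const, smul_eq_mul, probReal_univ, one_mul] at h5
  linarith

lemma fMax_singleton (i : Fin n) (y : Fin n → ℝ) :
    fMax {i} (Finset.singleton_nonempty i) y = y i := by
  simp [fMax]

lemma gMax_singleton (i : Fin n) (y : Fin n → ℝ) :
    gMax {i} (Finset.singleton_nonempty i) y = 1 := by
  unfold gMax
  rw [fMax_singleton]
  rw [Finset.filter_true_of_mem]
  · simp
  · intro j hj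
    rw [Finset.mem_singleton] at hj
    rw [hj]

/-- the mean of one coordinate -/
lemma mean_coord (hX : SolvesHowittWarren β ν x P' X) (i : Fin n) (t : ℝ≥0) :
    ∫ ω, X t ω i ∂P' = x i + β * t := by
  have hM := hX.maximum {i} (Finset.singleton_nonempty i)
  have h1 := hM.setIntegral_eq (zero_le : (0 : ℝ≥0) ≤ t) MeasurableSet.univ
  simp only [setIntegral_univ, fMax_singleton, gMax_singleton, betaPlus_one,
    intervalIntegral.integral_const, NNReal.coe_zero, sub_self, zero_mul, sub_zero,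
    smul_eq_mul] at h1
  have h2 : ∫ ω, X 0 ω i ∂P' = x i := by
    have h3 : (fun ω => X 0 ω i) =ᵐ[P'] fun _ => x i := by
      filter_upwards [hX.start] with ω hω
      rw [hω]
    rw [integral_congr_ae h3]
    simp
  rw [h2, integral_sub (integrable_coord hX t i) (integrable_const _), integral_const,
    probReal_univ, smul_eq_mul, one_mul] at h1
  linarith

/-- the second moment of one coordinate -/
lemma var_coord (hX : SolvesHowittWarren β ν x P' X) (i : Fin n) (t : ℝ≥0) :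
    ∫ ω, (X t ω i - β * t) ^ 2 ∂P' = x i ^ 2 + t := by
  have hM := hX.covariation i i
  have h1 := hM.setIntegral_eq (zero_le : (0 : ℝ≥0) ≤ t) MeasurableSet.univ
  simp only [setIntegral_univ, if_true, intervalIntegral.integral_const, NNReal.coe_zero, sub_self,
    sub_zero, smul_eq_mul, mul_zero, mul_one] at h1
  have h2 : ∫ ω, X 0 ω i * X 0 ω i ∂P' = x i * x i := by
    have h3 : (fun ω => X 0 ω i * X 0 ω i) =ᵐ[P'] fun _ => x i * x i := by
      filter_upwards [hX.start] with ω hω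
      rw [hω]
    rw [integral_congr_ae h3]
    simp
  have hL : MemLp (fun ω => X t ω i - β * t) 2 P' :=
    (hX.square_integrable t i).sub (memLp_const _)
  have hI : Integrable (fun ω => (X t ω i - β * t) * (X t ω i - β * t)) P' := by
    have := hL.integrable_sq
    refine this.congr (ae_of_all _ fun ω => ?_)
    simp only
    ring
  rw [h2, integral_sub hI (integrable_const _), integral_const, probReal_univ, smul_eq_mul,
    one_mul] at h1
  have h4 : ∫ ω, (X t ω i - β * t) ^ 2 ∂P' =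
      ∫ ω, (X t ω i - β * t) * (X t ω i - β * t) ∂P' := by
    congr 1
    funext ω
    ring
  rw [h4, pow_two]
  linarith

/-- the maximum of an `n`-point motion started from `0` -/
lemma max_bound (hν : invMoment ν ≠ ∞) {X : ℝ≥0 → Ω' → (Fin (n + 1) → ℝ)}
    (hX : SolvesHowittWarren β ν (fun _ => 0) P' X) {t : ℝ≥0} (ht : 0 < t) {y δ : ℝ} (hδ : 0 < δ)
    (hy : β + δ < y) :
    P' {ω | ¬ ∀ i, X t ω i ∈ Set.Iio (t * y)} ≤
      ENNReal.ofReal (1 / (δ ^ 2 * t) + 2 * (invMoment ν).toReal / (y - β - δ)) := by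
  have ht' : (0 : ℝ) < t := by exact_mod_cast ht
  set Δ : Finset (Fin (n + 1)) := Finset.univ with hΔd
  have hΔ : Δ.Nonempty := Finset.univ_nonempty
  set S := (invMoment ν).toReal with hS
  have hsub : {ω | ¬ ∀ i, X t ω i ∈ Set.Iio (t * y)} ⊆
      {ω | (δ * t) ^ 2 ≤ (X t ω 0 - β * t) ^ 2} ∪
      {ω | (y - β - δ) * t ≤ fMax Δ hΔ (X t ω) - X t ω 0} := by
    intro ω hω
    simp only [Set.mem_ofPred_eq, not_forall, Set.mem_Iio, not_lt] at hω
    obtain ⟨i, hi⟩ := hω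
    have h1 : (t : ℝ) * y ≤ fMax Δ hΔ (X t ω) := by
      refine hi.trans ?_
      exact Finset.le_sup' (f := X t ω) (Finset.mem_univ i)
    by_cases h2 : (y - β - δ) * t ≤ fMax Δ hΔ (X t ω) - X t ω 0
    · exact Or.inr h2
    · left
      push Not at h2
      have h3 : δ * t ≤ X t ω 0 - β * t := by nlinarith
      exact pow_le_pow_left₀ (by positivity) h3 2
  have hA : P' {ω | (δ * t) ^ 2 ≤ (X t ω 0 - β * t) ^ 2} ≤
      ENNReal.ofReal (1 / (δ ^ 2 * t)) := by
    have hL : MemLp (fun ω => X t ω 0 - β * t) 2 P' :=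
      (hX.square_integrable t 0).sub (memLp_const _)
    have h1 := mul_meas_ge_le_integral_of_nonneg (μ := P') (f := fun ω => (X t ω 0 - β * t) ^ 2)
      (ae_of_all _ fun ω => sq_nonneg _) hL.integrable_sq ((δ * t) ^ 2)
    rw [var_coord hX 0 t] at h1
    rw [← ofReal_measureReal]
    apply ENNReal.ofReal_le_ofReal
    rw [le_div_iff₀ (by positivity)]
    have h3 : (δ * (t : ℝ)) ^ 2 * P'.real {ω | (δ * (t : ℝ)) ^ 2 ≤ (X t ω 0 - β * t) ^ 2} ≤ t := by
      simpa using h1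
    have h4 : (t : ℝ) * (P'.real {ω | (δ * (t : ℝ)) ^ 2 ≤ (X t ω 0 - β * t) ^ 2} * (δ ^ 2 * t)) ≤
        t * 1 := by
      calc _ = (δ * (t : ℝ)) ^ 2 * P'.real {ω | (δ * (t : ℝ)) ^ 2 ≤ (X t ω 0 - β * t) ^ 2} := by
            ring
        _ ≤ _ := by simpa using h3
    exact le_of_mul_le_mul_left h4 ht'
  have hB : P' {ω | (y - β - δ) * t ≤ fMax Δ hΔ (X t ω) - X t ω 0} ≤
      ENNReal.ofReal (2 * S / (y - β - δ)) := by
    have hc : 0 < y - β - δ := by linarith
    have hi : Integrable (fun ω => fMax Δ hΔ (X t ω) - X t ω 0) P' :=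
      (integrable_fMax hX Δ hΔ t).sub (integrable_coord hX t 0)
    have h1 := mul_meas_ge_le_integral_of_nonneg (μ := P')
      (f := fun ω => fMax Δ hΔ (X t ω) - X t ω 0)
      (ae_of_all _ fun ω => by
        have : X t ω 0 ≤ fMax Δ hΔ (X t ω) :=
          Finset.le_sup' (f := X t ω) (Finset.mem_univ 0)
        simp only [Pi.zero_apply]
        linarith) hi ((y - β - δ) * t)
    rw [integral_sub (integrable_fMax hX Δ hΔ t) (integrable_coord hX t 0),
      mean_coord hX 0 t] at h1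
    have h2 := mean_fMax hν hX Δ hΔ t
    have h3 : fMax Δ hΔ (fun _ : Fin (n + 1) => (0 : ℝ)) = 0 := by
      unfold fMax
      exact Finset.sup'_const _ _
    rw [h3] at h2
    rw [← ofReal_measureReal]
    apply ENNReal.ofReal_le_ofReal
    rw [le_div_iff₀ hc]
    have h4 : (t : ℝ) * (P'.real {ω | (y - β - δ) * t ≤ fMax Δ hΔ (X t ω) - X t ω 0} *
        (y - β - δ)) ≤ t * (2 * S) := by
      calc _ = (y - β - δ) * t *
            P'.real {ω | (y - β - δ) * t ≤ fMax Δ hΔ (X t ω) - X t ω 0} := by ring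
        _ ≤ _ := by linarith
    exact le_of_mul_le_mul_left h4 ht'
  have hc : 0 < y - β - δ := by linarith
  calc _ ≤ P' _ := measure_mono hsub
    _ ≤ _ := measure_union_le _ _
    _ ≤ _ := add_le_add hA hB
    _ = _ := by rw [ENNReal.ofReal_add (by positivity) (by positivity)]

/-! ### The kernels -/

variable {Ω : Type*} [MeasurableSpace Ω] {P : Measure Ω} [IsProbabilityMeasure P]
  {K : ℝ → ℝ → Ω → Kernel ℝ ℝ}

omit [IsProbabilityMeasure P] in
lemma measurable_mass (hK : IsHowittWarrenFlow β ν P K) {t : ℝ} (ht : 0 ≤ t) {A : Set ℝ}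
    (hA : MeasurableSet A) : Measurable fun ω => K 0 t ω 0 A :=
  (hK.flow.measurable 0 t ht A hA).comp (measurable_id.prodMk measurable_const)

omit [IsProbabilityMeasure P] in
/-- the moments of the mass of a half-line -/
lemma moment_bound (hν : invMoment ν ≠ ∞) (hK : IsHowittWarrenFlow β ν P K) {t : ℝ} (ht : 0 < t)
    {y δ : ℝ} (hδ : 0 < δ) (hy : β + δ < y) (n : ℕ) :
    1 - ENNReal.ofReal (1 / (δ ^ 2 * t) + 2 * (invMoment ν).toReal / (y - β - δ)) ≤
      ∫⁻ ω, (K 0 t ω 0 (Set.Iio (t * y))) ^ (n + 1) ∂P := by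
  obtain ⟨Ω', m', P', hP', X, hX1, hX2⟩ := hK.motions (n + 1) (fun _ => 0)
  set τ : ℝ≥0 := t.toNNReal with hτ
  have hτt : (τ : ℝ) = t := Real.coe_toNNReal t ht.le
  have hτ0 : 0 < τ := by rw [hτ]; exact Real.toNNReal_pos.2 ht
  have h1 := max_bound hν hX2 hτ0 hδ hy
  rw [hτt] at h1
  have h2 := hX1.markov 0 τ bot_le (fun _ => Set.Iio (t * y)) (fun _ => measurableSet_Iio)
    Set.univ MeasurableSet.univ
  rw [Set.univ_inter, Measure.restrict_univ] at h2
  have h3 : ∫⁻ ω', ∫⁻ ω, ∏ i, K ((0 : ℝ≥0) : ℝ) (τ : ℝ) ω (X 0 ω' i) (Set.Iio (t * y)) ∂P ∂P' =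
      ∫⁻ ω, (K 0 t ω 0 (Set.Iio (t * y))) ^ (n + 1) ∂P := by
    have h4 : (fun ω' => ∫⁻ ω, ∏ i, K ((0 : ℝ≥0) : ℝ) (τ : ℝ) ω (X 0 ω' i)
        (Set.Iio (t * y)) ∂P) =ᵐ[P']
        fun _ => ∫⁻ ω, (K 0 t ω 0 (Set.Iio (t * y))) ^ (n + 1) ∂P := by
      filter_upwards [hX1.start] with ω' hω'
      rw [hω', hτt, NNReal.coe_zero]
      simp
    rw [lintegral_congr_ae h4]
    simp
  rw [h3] at h2
  rw [← h2]
  have hms : MeasurableSet {ω' | ∀ i, X τ ω' i ∈ Set.Iio (t * y)} := by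
    have : {ω' | ∀ i, X τ ω' i ∈ Set.Iio (t * y)} =
        X τ ⁻¹' (Set.univ.pi fun _ => Set.Iio (t * y)) := by
      ext ω'
      simp
    rw [this]
    exact hX2.measurable τ (MeasurableSet.univ_pi fun _ => measurableSet_Iio)
  have h5 : P' {ω' | ∀ i, X τ ω' i ∈ Set.Iio (t * y)}ᶜ =
      1 - P' {ω' | ∀ i, X τ ω' i ∈ Set.Iio (t * y)} := prob_compl_eq_one_sub hms
  have h6 : {ω' | ∀ i, X τ ω' i ∈ Set.Iio (t * y)}ᶜ =
      {ω' | ¬ ∀ i, X τ ω' i ∈ Set.Iio (t * y)} := rfl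
  rw [h6] at h5
  rw [h5] at h1
  exact tsub_le_iff_right.2 (tsub_le_iff_left.1 h1)

omit [IsProbabilityMeasure P] in
lemma pow_limit {k : ℝ≥0∞} (hk : k ≤ 1) :
    Tendsto (fun n : ℕ => k ^ (n + 1)) atTop (𝓝 (if k = 1 then 1 else 0)) := by
  split_ifs with h
  · rw [h]
    simp
  · exact (ENNReal.tendsto_pow_atTop_nhds_zero_of_lt_one (lt_of_le_of_ne hk h)).comp
      (tendsto_add_atTop_nat 1)

/-- no mass beyond the speed -/
theorem zero_bound (hν : invMoment ν ≠ ∞) (hK : IsHowittWarrenFlow β ν P K) {t : ℝ} (ht : 0 < t)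
    {y δ : ℝ} (hδ : 0 < δ) (hy : β + δ < y) :
    1 - ENNReal.ofReal (1 / (δ ^ 2 * t) + 2 * (invMoment ν).toReal / (y - β - δ)) ≤
      P {ω | K 0 t ω 0 (Set.Ici (t * y)) = 0} := by
  have hm := measurable_mass hK ht.le (measurableSet_Iio (a := t * y))
  have hle : ∀ ω, K 0 t ω 0 (Set.Iio (t * y)) ≤ 1 := by
    intro ω
    have := hK.flow.probability 0 t ht.le ω
    exact prob_le_one
  have hlim : Tendsto (fun n : ℕ => ∫⁻ ω, (K 0 t ω 0 (Set.Iio (t * y))) ^ (n + 1) ∂P) atTop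
      (𝓝 (∫⁻ ω, (if K 0 t ω 0 (Set.Iio (t * y)) = 1 then (1 : ℝ≥0∞) else 0) ∂P)) := by
    refine tendsto_lintegral_of_dominated_convergence (fun _ => 1)
      (fun n => hm.pow_const _) (fun n => ae_of_all _ fun ω => pow_le_one' (hle ω) _)
      (by simp) (ae_of_all _ fun ω => pow_limit (hle ω))
  have h1 := ge_of_tendsto' hlim fun n => moment_bound hν hK ht hδ hy n
  refine h1.trans ?_
  have h2 : (fun ω => if K 0 t ω 0 (Set.Iio (t * y)) = 1 then (1 : ℝ≥0∞) else 0) =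
      {ω | K 0 t ω 0 (Set.Iio (t * y)) = 1}.indicator fun _ => 1 := by
    funext ω
    by_cases h : K 0 t ω 0 (Set.Iio (t * y)) = 1
    · simp [h]
    · simp [h]
  have hms : MeasurableSet {ω | K 0 t ω 0 (Set.Iio (t * y)) = 1} :=
    hm (measurableSet_singleton 1)
  rw [h2, lintegral_indicator hms]
  simp only [lintegral_const, Measure.restrict_apply_univ, one_mul]
  refine measure_mono fun ω hω => ?_
  have hp := hK.flow.probability 0 t ht.le ω
  have h3 : (Set.Ici (t * y)) = (Set.Iio (t * y))ᶜ := by rw [Set.compl_Iio]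
  change K 0 t ω 0 (Set.Ici (t * y)) = 0
  rw [h3, prob_compl_eq_one_sub measurableSet_Iio]
  have h4 : K 0 t ω 0 (Set.Iio (t * y)) = 1 := hω
  rw [h4, tsub_self]

/-- the probability of no mass beyond `t x` is asymptotically at least `1 - 2 S / (x - β)` -/
theorem eventually_zero (hν : invMoment ν ≠ ∞) (hK : IsHowittWarrenFlow β ν P K) {x : ℝ}
    (hx : β < x) {p : ℝ} (hp : p < 1 - 2 * (invMoment ν).toReal / (x - β)) :
    ∀ᶠ t : ℝ in atTop, ENNReal.ofReal p ≤ P {ω | K 0 t ω 0 (Set.Ici (t * x)) = 0} := by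
  set S := (invMoment ν).toReal with hS
  have hc : 0 < x - β := by linarith
  -- choice of `δ`
  have h1 : Tendsto (fun δ : ℝ => 1 - 2 * S / (x - β - δ)) (𝓝[>] 0)
      (𝓝 (1 - 2 * S / (x - β))) := by
    have h2 : ContinuousAt (fun δ : ℝ => 1 - 2 * S / (x - β - δ)) 0 := by
      refine ContinuousAt.sub continuousAt_const (ContinuousAt.div continuousAt_const ?_ ?_)
      · fun_prop
      · simpa using hc.ne'
    have h3 : Tendsto (fun δ : ℝ => 1 - 2 * S / (x - β - δ)) (𝓝 0)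
        (𝓝 (1 - 2 * S / (x - β - 0))) := h2
    rw [sub_zero] at h3
    exact h3.mono_left nhdsWithin_le_nhds
  obtain ⟨δ, h3, h4, h5⟩ := ((h1.eventually (lt_mem_nhds hp)).and
    ((eventually_mem_nhdsWithin).and (mem_nhdsWithin_of_mem_nhds (gt_mem_nhds hc)))).exists
  have h4' : 0 < δ := h4
  have h5' : δ < x - β := h5
  -- large times
  have h6 : Tendsto (fun t : ℝ => 1 - (1 / (δ ^ 2 * t) + 2 * S / (x - β - δ))) atTop
      (𝓝 (1 - (0 + 2 * S / (x - β - δ)))) := by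
    refine Tendsto.const_sub _ (Tendsto.add_const _ ?_)
    refine Tendsto.congr (fun t => (one_div _).symm) ?_
    exact tendsto_inv_atTop_zero.comp (tendsto_id.const_mul_atTop (by positivity))
  rw [zero_add] at h6
  filter_upwards [h6.eventually (lt_mem_nhds h3), eventually_gt_atTop 0] with t h7 h8
  refine le_trans ?_ (zero_bound hν hK h8 h4' (by linarith : β + δ < x))
  rw [← ENNReal.ofReal_one, ← ENNReal.ofReal_sub _ (by
    have : 0 < x - β - δ := by linarith
    positivity)]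
  exact ENNReal.ofReal_le_ofReal h7.le

lemma rescaled_zero_pos {Ω₁ : Type*} {κ : ℝ → Ω₁ → ℝ≥0∞} {c σ t : ℝ} {ω : Ω₁} (ht : 0 < t)
    (hσ : 0 < σ) (h : κ t ω = 0) : rescaled κ c σ t ω = ⊤ := by
  unfold rescaled
  rw [h, ENNReal.log_zero, EReal.neg_bot, EReal.top_sub_coe]
  exact EReal.top_div_of_pos_ne_top (by exact_mod_cast (by positivity : 0 < σ * t ^ (1 / 3 : ℝ)))
    (EReal.coe_ne_top _)

lemma rescaled_zero_neg {Ω₁ : Type*} {κ : ℝ → Ω₁ → ℝ≥0∞} {c σ t : ℝ} {ω : Ω₁} (ht : 0 < t)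
    (hσ : σ < 0) (h : κ t ω = 0) : rescaled κ c σ t ω = ⊥ := by
  unfold rescaled
  rw [h, ENNReal.log_zero, EReal.neg_bot, EReal.top_sub_coe]
  have h1 : σ * t ^ (1 / 3 : ℝ) < 0 := mul_neg_of_neg_of_pos hσ (by positivity)
  exact EReal.top_div_of_neg_ne_bot (by exact_mod_cast h1) (EReal.coe_ne_bot _)

/-- atoms are rare -/
lemma exists_continuity (ρ : Measure ℝ) [IsProbabilityMeasure ρ] {a b : ℝ} (hab : a < b) :
    ∃ s, a < s ∧ s < b ∧ ρ {s} = 0 := by
  have h1 : Set.Countable {s : ℝ | 0 < ρ {s}} := Measure.countable_meas_pos_of_disjoint_iUnion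
    (As := fun s : ℝ => ({s} : Set ℝ)) (fun s => measurableSet_singleton s)
    (fun s s' h => by simpa using h)
  obtain ⟨s, h2, h3, h4⟩ := (h1.dense_compl ℝ).exists_between hab
  refine ⟨s, h3, h4, ?_⟩
  by_contra h5
  exact h2 (pos_iff_ne_zero.2 h5)

/-- a random variable which vanishes with a probability bounded below has no limit law after
taking the logarithm, centering and scaling -/
theorem no_limit {Ω₁ : Type*} [MeasurableSpace Ω₁] {P₁ : Measure Ω₁} [IsProbabilityMeasure P₁]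
    {κ : ℝ → Ω₁ → ℝ≥0∞} (hκ : ∀ t, 0 < t → Measurable (κ t)) {p : ℝ} (hp : 0 < p)
    (h : ∀ᶠ t : ℝ in atTop, ENNReal.ofReal p ≤ P₁ {ω | κ t ω = 0}) {c σ : ℝ} (hσ : σ ≠ 0)
    (ρ : Measure ℝ) [IsProbabilityMeasure ρ] : ¬ ConvergesInLaw P₁ (rescaled κ c σ) ρ := by
  intro hc
  have hp0 : 0 < ENNReal.ofReal p := ENNReal.ofReal_pos.2 hp
  rcases lt_or_gt_of_ne hσ with hσ | hσ
  · -- `σ < 0`
    have h1 : ∀ s, ρ {s} = 0 → ENNReal.ofReal p ≤ ρ (Set.Iic s) := by
      intro s hs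
      refine ge_of_tendsto (hc s hs) ?_
      filter_upwards [h, eventually_gt_atTop 0] with t h2 h3
      refine h2.trans (measure_mono fun ω hω => ?_)
      change rescaled κ c σ t ω ≤ s
      rw [rescaled_zero_neg h3 hσ hω]
      exact bot_le
    have h2 : Tendsto (fun s : ℝ => ρ (Set.Iic s)) atBot (𝓝 0) := by
      have h3 := ENNReal.tendsto_ofReal (tendsto_cdf_atBot ρ)
      rw [ENNReal.ofReal_zero] at h3
      exact h3.congr fun s => ofReal_cdf ρ s
    obtain ⟨a, ha⟩ := (h2.eventually (gt_mem_nhds hp0)).exists_forall_of_atBot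
    obtain ⟨s, -, h3, h4⟩ := exists_continuity ρ (show a - 1 < a by linarith)
    exact absurd (h1 s h4) (not_le.2 (ha s h3.le))
  · -- `σ > 0`
    have h1 : ∀ s, ρ {s} = 0 → ρ (Set.Iic s) ≤ 1 - ENNReal.ofReal p := by
      intro s hs
      refine le_of_tendsto (hc s hs) ?_
      filter_upwards [h, eventually_gt_atTop 0] with t h2 h3
      have h4 : {ω | rescaled κ c σ t ω ≤ s} ⊆ {ω | κ t ω = 0}ᶜ := by
        intro ω hω h5
        have h6 : rescaled κ c σ t ω ≤ s := hω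
        rw [rescaled_zero_pos h3 hσ h5] at h6
        exact absurd h6 (by simp)
      have hms : MeasurableSet {ω | κ t ω = 0} := hκ t h3 (measurableSet_singleton 0)
      calc P₁ {ω | rescaled κ c σ t ω ≤ s} ≤ P₁ {ω | κ t ω = 0}ᶜ := measure_mono h4
        _ = 1 - P₁ {ω | κ t ω = 0} := prob_compl_eq_one_sub hms
        _ ≤ _ := tsub_le_tsub_left h2 1
    have h2 : Tendsto (fun s : ℝ => ρ (Set.Iic s)) atTop (𝓝 (ρ Set.univ)) :=
      tendsto_measure_Iic_atTop ρ
    rw [measure_univ] at h2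
    have h3 : 1 - ENNReal.ofReal p < 1 := ENNReal.sub_lt_self (by simp) (by simp) hp0.ne'
    obtain ⟨a, ha⟩ := (h2.eventually (lt_mem_nhds h3)).exists_forall_of_atTop
    obtain ⟨s, h4, -, h5⟩ := exists_continuity ρ (show a < a + 1 by linarith)
    exact absurd (h1 s h5) (not_le.2 (ha s h4.le))

lemma invMoment_half : invMoment (Measure.dirac (⟨1 / 2, by norm_num, by norm_num⟩ : unitInterval)) =
    2 := by
  unfold invMoment
  rw [lintegral_dirac' _ (by fun_prop)]
  simp only [one_div]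
  rw [← ENNReal.ofReal_inv_of_pos (by norm_num), inv_inv]
  simp

universe u v

/-- **Q1 fails beyond the speed of a flow of finite speed.**

(1) Let `ν` be a finite measure on `[0, 1]` with `S = ∫ q⁻¹ ν(dq) < ∞`, let `β` be a real number, let
`x > β + 2 S`, and let `K` be a Howitt-Warren flow with drift `β` and characteristic measure `ν`. Then
`liminf P(K_{0,t}(0, [t x, ∞)) = 0) ≥ 1 - 2 S / (x - β) > 0` as `t → ∞`. Consequently, if `κ_t` has the
law of `K_{0,t}(0, [t x, t x + 1])` for every `t > 0` (for instance `κ_t = K↑_{0,t}(0, [t x, t x + 1])`),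
then for all constants `c` and `σ ≠ 0` the random variables `(- log κ_t - c t) / (σ t^{1/3})` do not
converge in law to any probability measure on `ℝ`, in particular not to the Tracy-Widom law.

(2) The negated form of Q1: there are `β`, a finite measure `ν` on `[0, 1]` with `ν((0, 1)) > 0` and
`x ≠ β` (namely `β = 0`, `ν = δ_{1/2}`, `x = 5`) for which there is no convergence for any constants. -/
theorem result :
    (∀ (β : ℝ) (ν : Measure unitInterval), IsFiniteMeasure ν →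
      ∫⁻ q : unitInterval, (ENNReal.ofReal (q : ℝ))⁻¹ ∂ν ≠ ∞ →
      ∀ x : ℝ, β + 2 * (∫⁻ q : unitInterval, (ENNReal.ofReal (q : ℝ))⁻¹ ∂ν).toReal < x →
      ∀ (Ω : Type u) (_ : MeasurableSpace Ω) (P : Measure Ω) (_ : IsProbabilityMeasure P)
        (K : ℝ → ℝ → Ω → Kernel ℝ ℝ), IsHowittWarrenFlow β ν P K →
        (0 < 1 - 2 * (∫⁻ q : unitInterval, (ENNReal.ofReal (q : ℝ))⁻¹ ∂ν).toReal / (x - β) ∧
          ∀ p : ℝ,
            p < 1 - 2 * (∫⁻ q : unitInterval, (ENNReal.ofReal (q : ℝ))⁻¹ ∂ν).toReal / (x - β) →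
            ∀ᶠ t : ℝ in atTop, ENNReal.ofReal p ≤ P {ω | K 0 t ω 0 (Set.Ici (t * x)) = 0}) ∧
        ∀ (Ω₁ : Type v) (_ : MeasurableSpace Ω₁) (P₁ : Measure Ω₁) (_ : IsProbabilityMeasure P₁)
          (κ : ℝ → Ω₁ → ℝ≥0∞), (∀ t, 0 < t → Measurable (κ t)) →
          (∀ t, 0 < t → P₁.map (κ t) = P.map fun ω => K 0 t ω 0 (Set.Icc (t * x) (t * x + 1))) →
          ∀ c σ : ℝ, σ ≠ 0 → ∀ ρ : Measure ℝ, IsProbabilityMeasure ρ →
            ¬ ConvergesInLaw P₁ (rescaled κ c σ) ρ) ∧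
    ∃ (β : ℝ) (ν : Measure unitInterval) (x : ℝ), IsFiniteMeasure ν ∧ 0 < ν (Set.Ioo 0 1) ∧ x ≠ β ∧
      ∀ (Ω : Type u) (_ : MeasurableSpace Ω) (P : Measure Ω) (_ : IsProbabilityMeasure P)
        (K : ℝ → ℝ → Ω → Kernel ℝ ℝ), IsHowittWarrenFlow β ν P K →
        ∀ c σ : ℝ, σ ≠ 0 → ∀ ρ : Measure ℝ, IsProbabilityMeasure ρ →
          ¬ ConvergesInLaw P (rescaled (fun t ω => K 0 t ω 0 (Set.Icc (t * x) (t * x + 1))) c σ)
            ρ := by
  have main : ∀ (β : ℝ) (ν : Measure unitInterval), IsFiniteMeasure ν →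
      ∫⁻ q : unitInterval, (ENNReal.ofReal (q : ℝ))⁻¹ ∂ν ≠ ∞ →
      ∀ x : ℝ, β + 2 * (∫⁻ q : unitInterval, (ENNReal.ofReal (q : ℝ))⁻¹ ∂ν).toReal < x →
      ∀ (Ω : Type u) (_ : MeasurableSpace Ω) (P : Measure Ω) (_ : IsProbabilityMeasure P)
        (K : ℝ → ℝ → Ω → Kernel ℝ ℝ), IsHowittWarrenFlow β ν P K →
        (0 < 1 - 2 * (∫⁻ q : unitInterval, (ENNReal.ofReal (q : ℝ))⁻¹ ∂ν).toReal / (x - β) ∧
          ∀ p : ℝ,
            p < 1 - 2 * (∫⁻ q : unitInterval, (ENNReal.ofReal (q : ℝ))⁻¹ ∂ν).toReal / (x - β) →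
            ∀ᶠ t : ℝ in atTop, ENNReal.ofReal p ≤ P {ω | K 0 t ω 0 (Set.Ici (t * x)) = 0}) := by
    intro β ν _ hν x hx Ω _ P _ K hK
    have hS : 0 ≤ (∫⁻ q : unitInterval, (ENNReal.ofReal (q : ℝ))⁻¹ ∂ν).toReal :=
      ENNReal.toReal_nonneg
    have hx' : 0 < x - β := by linarith
    refine ⟨?_, fun p hp => eventually_zero hν hK (by linarith) hp⟩
    rw [sub_pos, div_lt_one hx']
    linarith
  have main2 : ∀ (β : ℝ) (ν : Measure unitInterval), IsFiniteMeasure ν →
      ∫⁻ q : unitInterval, (ENNReal.ofReal (q : ℝ))⁻¹ ∂ν ≠ ∞ →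
      ∀ x : ℝ, β + 2 * (∫⁻ q : unitInterval, (ENNReal.ofReal (q : ℝ))⁻¹ ∂ν).toReal < x →
      ∀ (Ω : Type u) (_ : MeasurableSpace Ω) (P : Measure Ω) (_ : IsProbabilityMeasure P)
        (K : ℝ → ℝ → Ω → Kernel ℝ ℝ), IsHowittWarrenFlow β ν P K →
        ∃ p : ℝ, 0 < p ∧ ∀ᶠ t : ℝ in atTop, 0 < t ∧
          ENNReal.ofReal p ≤ P {ω | K 0 t ω 0 (Set.Icc (t * x) (t * x + 1)) = 0} := by
    intro β ν hf hν x hx Ω _ P _ K hK
    obtain ⟨h1, h2⟩ := main β ν hf hν x hx Ω _ P ‹_› K hK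
    refine ⟨_, half_pos h1, ?_⟩
    filter_upwards [h2 _ (half_lt_self h1), eventually_gt_atTop 0] with t h3 h4
    refine ⟨h4, h3.trans (measure_mono fun ω hω => ?_)⟩
    exact measure_mono_null Set.Icc_subset_Ici_self hω
  refine ⟨fun β ν hf hν x hx Ω _ P _ K hK => ⟨main β ν hf hν x hx Ω _ P ‹_› K hK, ?_⟩, ?_⟩
  · intro Ω₁ _ P₁ _ κ hκ hlaw c σ hσ ρ _
    obtain ⟨p, hp, h⟩ := main2 β ν hf hν x hx Ω _ P ‹_› K hK
    refine no_limit hκ hp ?_ hσ ρ
    filter_upwards [h] with t ht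
    have h1 : P₁ {ω | κ t ω = 0} = P₁.map (κ t) {0} := by
      rw [Measure.map_apply (hκ t ht.1) (measurableSet_singleton 0)]
      rfl
    have h2 : P {ω | K 0 t ω 0 (Set.Icc (t * x) (t * x + 1)) = 0} =
        P.map (fun ω => K 0 t ω 0 (Set.Icc (t * x) (t * x + 1))) {0} := by
      rw [Measure.map_apply (measurable_mass hK ht.1.le measurableSet_Icc)
        (measurableSet_singleton 0)]
      rfl
    rw [h1, hlaw t ht.1, ← h2]
    exact ht.2
  · refine ⟨0, Measure.dirac (⟨1 / 2, by norm_num, by norm_num⟩ : unitInterval), 5, inferInstance,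
      ?_, by norm_num, ?_⟩
    · rw [Measure.dirac_apply' _ measurableSet_Ioo, Set.indicator_of_mem]
      · simp
      · constructor
        · rw [← Subtype.coe_lt_coe]
          norm_num
        · rw [← Subtype.coe_lt_coe]
          norm_num
    · intro Ω _ P _ K hK c σ hσ ρ _
      have h0 := invMoment_half
      unfold invMoment at h0
      obtain ⟨p, hp, h⟩ := main2 0 _ inferInstance (by rw [h0]; simp) 5 (by
        rw [h0]; norm_num) Ω _ P ‹_› K hK
      refine no_limit (fun t ht => measurable_mass hK ht.le measurableSet_Icc) hp ?_ hσ ρ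
      filter_upwards [h] with t ht
      exact ht.2

end Pool.Agent.Results.MP_b213bc_pr.FiniteSpeed
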